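import Pool.Agent.H80.PK.FStmts
import Pool.Agent.H78.PK.MKT

/-!
# Row MK2 of the board `pkt`: assembly over matrix algebras, with the lifting of idempotents
-/

set_option autoImplicit false

namespace Pool.PK

open Filter Topology

attribute [local instance] Matrix.linftyOpNormedRing Matrix.linftyOpNormedAlgebra

theorem MK2 (h1 : K0SStmt) (h2 : K0IStmt) (h3 : K1SStmt) (h4 : K1IStmt) (h5 : KB0Stmt)
    (h6 : KB1Stmt) : MK2Stmt := by
  intro A B U _ _ _ _ _ _ _ _ ι φ hφ d1 d2 hn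
  have hRS := mkt_rs ι φ hφ d1 d2 hn
  haveI := fun n : ℕ => mkt_complete (A := A) n
  haveI := fun n : ℕ => mkt_complete (A := B) n
  have hlift : ∀ (n : ℕ) (f : Idem B n), ∃ e : Idem A n,
      Similar ((φ : A →+* B).mapMatrix e.1) f.1 := by
    intro n f
    obtain ⟨e, he, hs⟩ := h1 (Mat A n) (Mat B n) (Mat U n) _ _ (hRS n) f.1 f.2
    exact ⟨⟨e, he⟩, hs⟩
  refine ⟨hlift, ?_, ?_⟩
  · refine h5 A B (φ : A →+* B) hlift ?_
    intro n e f hs
    exact h2 (Mat A n) (Mat B n) (Mat U n) _ _ (hRS n) e.1 f.1 e.2 f.2 hs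
  · refine h6 A B (φ : A →+* B) hφ ?_ ?_
    · intro n v
      obtain ⟨a, ha, hs⟩ := h3 (Mat A n) (Mat B n) (Mat U n) _ _ (hRS n) (v : Mat B n) v.isUnit
      obtain ⟨u, rfl⟩ := ha
      exact ⟨u, hs⟩
    · intro n u v hs
      exact h4 (Mat A n) (Mat B n) (Mat U n) _ _ (hRS n) (u : Mat A n) (v : Mat A n) u.isUnit
        v.isUnit hs

end Pool.PK
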